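import Mathlib

set_option autoImplicit false

namespace Pool.Agent.Results.MP_3f847c_gt.Weight

open Set Filter Topology Cardinal

/-- The weight: least size of a base, taken to be at least `ℵ₀`. -/
noncomputable def weight (Z : Type) [TopologicalSpace Z] : Cardinal :=
  max ℵ₀ (sInf {c | ∃ B : Set (Set Z), TopologicalSpace.IsTopologicalBasis B ∧ #B = c})

/-- The network weight: least size of a network, taken to be at least `ℵ₀`. -/
noncomputable def networkWeight (Z : Type) [TopologicalSpace Z] : Cardinal :=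
  max ℵ₀ (sInf {c | ∃ N : Set (Set Z),
    (∀ z U, IsOpen U → z ∈ U → ∃ M ∈ N, z ∈ M ∧ M ⊆ U) ∧ #N = c})

/-- The space of the example. -/
def X : Type := ℝ → Bool

instance : TopologicalSpace X where
  IsOpen U := ∀ x ∈ U, ∃ S : Set ℝ, S.Countable ∧ ∀ y : X, EqOn y x S → y ∈ U
  isOpen_univ := fun _ _ => ⟨∅, countable_empty, fun _ _ => trivial⟩
  isOpen_inter := by
    intro U V hU hV x hx
    obtain ⟨S, a, b⟩ := hU x hx.1
    obtain ⟨T, c, d⟩ := hV x hx.2
    exact ⟨S ∪ T, a.union c, fun y hy =>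
      ⟨b y (hy.mono subset_union_left), d y (hy.mono subset_union_right)⟩⟩
  isOpen_sUnion := by
    rintro s hs x ⟨U, hU, hx⟩
    obtain ⟨S, a, b⟩ := hs U hU x hx
    exact ⟨S, a, fun y hy => ⟨U, hU, b y hy⟩⟩

theorem open_iff (U : Set X) :
    IsOpen U ↔ ∀ x ∈ U, ∃ S : Set ℝ, S.Countable ∧ ∀ y : X, EqOn y x S → y ∈ U := Iff.rfl

theorem clopen (x : X) {S : Set ℝ} (hS : S.Countable) : IsClopen {y : X | EqOn y x S} :=
  ⟨isOpen_compl_iff.1 ((open_iff _).2 fun _ hy => ⟨S, hS, fun _ hz h => hy (hz.symm.trans h)⟩),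
    (open_iff _).2 fun _ hy => ⟨S, hS, fun _ hz => hz.trans hy⟩⟩

theorem closed {C : Set X} (hC : C.Countable) : IsClosed C := by
  refine isOpen_compl_iff.1 ((open_iff _).2 fun x hx => ?_)
  have : ∀ c : C, ∃ s, c.1 s ≠ x s := fun c => by
    by_contra h
    push Not at h
    exact hx ((funext h : c.1 = x) ▸ c.2)
  choose s hs using this
  have := hC.to_subtype
  exact ⟨range s, countable_range s, fun y hy hc => hs ⟨y, hc⟩ (hy ⟨_, rfl⟩)⟩

theorem t35 : T35Space X := by
  have : T1Space X := ⟨fun x => closed (countable_singleton x)⟩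
  have : CompletelyRegularSpace X := CompletelyRegularSpace.of_isTopologicalBasis_clopens
    (TopologicalSpace.isTopologicalBasis_of_isOpen_of_nhds (fun _ h => h.isOpen) fun x U hx hU => by
      obtain ⟨S, a, b⟩ := (open_iff U).1 hU x hx
      exact ⟨_, clopen x a, fun _ _ => rfl, b⟩)
  exact {}

theorem nw_le : networkWeight X ≤ 𝔠 := by
  let N : (ℕ → ℝ) × (ℕ → Bool) → Set X := fun p => {y | ∀ n, y (p.1 n) = p.2 n}
  refine max_le aleph0_le_continuum ((csInf_le' (a := #(range N))
    ?_).trans (mk_range_le.trans ?_))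
  · refine ⟨range N, fun z U hU hz => ?_, rfl⟩
    obtain ⟨S, a, b⟩ := (open_iff U).1 hU z hz
    obtain ⟨s, hs⟩ := (a.insert 0).exists_eq_range (insert_nonempty _ _)
    refine ⟨_, ⟨(s, fun n => z (s n)), rfl⟩, fun _ => rfl, fun y hy => b y fun t ht => ?_⟩
    obtain ⟨n, rfl⟩ : t ∈ range s := hs ▸ mem_insert_of_mem _ ht
    exact hy n
  · simp [mk_real]

/-- A Tychonoff space `X` and a compact convex set `K` of scatteredly continuous functions on `X`
whose weight exceeds the network weight of `X`. -/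
theorem result : ∃ (X : Type) (_ : TopologicalSpace X), T35Space X ∧ ∃ K : Set (X → ℝ),
    (∀ f ∈ K, ∀ A : Set X, A.Nonempty → ∃ a ∈ A, ContinuousWithinAt f A a) ∧
    IsCompact K ∧ Convex ℝ K ∧ networkWeight X < weight K := by
  classical
  let C : Set (X → ℝ) := {x | (∀ γ, 0 ≤ x γ) ∧ ∀ F : Finset X, ∑ γ ∈ F, x γ ≤ 1}
  have hCc : IsCompact C := by
    refine (isCompact_univ_pi fun _ => isCompact_Icc (a := (0 : ℝ)) (b := 1)).of_isClosed_subset
      ?_ fun x hx γ _ => ⟨hx.1 γ, by simpa using hx.2 {γ}⟩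
    simp only [C, ofPred_and, ofPred_forall]
    exact (isClosed_iInter fun γ => isClosed_le continuous_const (continuous_apply γ)).inter
      (isClosed_iInter fun F => isClosed_le (by fun_prop) continuous_const)
  have hCv : Convex ℝ C := by
    intro x hx y hy a b ha hb hab
    refine ⟨fun γ => add_nonneg (mul_nonneg ha (hx.1 γ)) (mul_nonneg hb (hy.1 γ)), fun F => ?_⟩
    simp only [Pi.add_apply, Pi.smul_apply, smul_eq_mul, Finset.sum_add_distrib, ← Finset.mul_sum]
    nlinarith [hx.2 F, hy.2 F]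
  refine ⟨X, inferInstance, t35, C, ?_, hCc, hCv, nw_le.trans_lt (lt_max_of_lt_right ?_)⟩
  · rintro x hx A ⟨a, ha⟩
    have h1 : ∀ n : ℕ, {γ | 1 / ((n : ℝ) + 1) < x γ}.Finite := by
      intro n
      by_contra hn
      obtain ⟨F, f1, f2⟩ := Set.Infinite.exists_subset_card_eq hn (n + 1)
      have h2 : ∑ _γ ∈ F, 1 / ((n : ℝ) + 1) < ∑ γ ∈ F, x γ :=
        Finset.sum_lt_sum_of_nonempty (Finset.card_pos.1 (by omega)) fun γ hγ => f1 hγ
      rw [Finset.sum_const, f2, nsmul_eq_mul] at h2
      push_cast at h2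
      rw [mul_one_div_cancel (by positivity)] at h2
      exact absurd (hx.2 F) (not_le.2 h2)
    have h2 : {γ | x γ ≠ 0}.Countable := by
      refine (countable_iUnion fun n => (h1 n).countable).mono fun γ hγ => ?_
      obtain ⟨n, hn⟩ := exists_nat_one_div_lt (lt_of_le_of_ne (hx.1 γ) (Ne.symm hγ))
      exact mem_iUnion.2 ⟨n, hn⟩
    have h3 := (closed (h2.mono (sdiff_subset (t := {a})))).isOpen_compl.mem_nhds
      (show a ∉ _ from fun h => h.2 rfl)
    by_cases hc : ∃ b ∈ A, x b = 0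
    · obtain ⟨b, b1, b2⟩ := hc
      refine ⟨b, b1, (continuousAt_const (y := (0 : ℝ))).congr ?_ |>.continuousWithinAt⟩
      filter_upwards [(closed h2).isOpen_compl.mem_nhds (show b ∉ _ from fun h => h b2)] with y hy
      exact (not_not.1 hy).symm
    · refine ⟨a, ha, (continuousWithinAt_const (b := x a)).congr_of_eventuallyEq ?_ rfl⟩
      filter_upwards [nhdsWithin_le_nhds h3, self_mem_nhdsWithin] with y hy hyA
      by_cases e : y = a
      · rw [e]
      · exact absurd ⟨y, hyA, not_not.1 fun h => hy ⟨h, e⟩⟩ hc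
  · obtain ⟨B, hB, e⟩ := csInf_mem (s := {c | ∃ B : Set (Set C),
      TopologicalSpace.IsTopologicalBasis B ∧ #B = c})
      ⟨_, _, TopologicalSpace.isTopologicalBasis_opens, rfl⟩
    rw [← e]
    have h1 : ∀ γ : X, ∃ U : B, U.1.Nonempty ∧ U.1 ⊆ {x : C | 1 / 2 < x.1 γ} := by
      intro γ
      obtain ⟨U, u1, u2, u3⟩ := hB.exists_subset_of_mem_open
        (a := ⟨Pi.single γ 1, fun δ => by
          by_cases h : δ = γ <;> simp [h], fun F => by
          rw [Finset.sum_pi_single']
          split_ifs <;> simp⟩) (u := {x : C | 1 / 2 < x.1 γ}) (by simp; norm_num)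
        (isOpen_lt continuous_const ((continuous_apply γ).comp continuous_subtype_val))
      exact ⟨⟨U, u1⟩, ⟨_, u2⟩, u3⟩
    choose U hU using h1
    have h2 : Function.Injective U := by
      intro γ δ h
      by_contra hne
      obtain ⟨x, hx⟩ := (hU γ).1
      have a : 1 / 2 < x.1 γ := (hU γ).2 hx
      have b : 1 / 2 < x.1 δ := (hU δ).2 (h ▸ hx)
      have := x.2.2 {γ, δ}
      rw [Finset.sum_pair hne] at this
      linarith
    refine lt_of_lt_of_le ?_ (mk_le_of_injective h2)
    have : #X = 2 ^ 𝔠 := by simp [X, mk_real]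
    rw [this]
    exact cantor _

end Pool.Agent.Results.MP_3f847c_gt.Weight
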